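import Pool.Agent.Y540.SP.Act

/-!
# MP_3976d4_co: periodic points of bounded period on posets of finite length with a special element

For every `n` there is `k ≥ 1` such that `f^k` has a fixed point for every order-preserving self-map
`f` of every (possibly infinite) poset with a special element whose chains have at most `n`
elements.

Ingredients (all proved in `Pool/Agent/Y540/SP`): a poset with a special element is acyclic mod 2
(acyclic carriers, `Special.lean`); ultraproducts of such posets are such posets (`Ultra.lean`); on
an acyclic poset whose chains have at most `n` elements, a free abelian monoid of rank `n` cannot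
act freely (`Torus.lean`, `Free.lean`).
-/

set_option autoImplicit false

namespace Pool.Agent.Results.MP_3976d4_co.UniformPeriod

/-- **Uniform periods.** For every `n` there is `k > 0` such that, for every poset `P` whose chains
have at most `n` elements and which has a special element `s`: `f^k` has a fixed point for every
order-preserving `f : P → P`; and for all commuting order-preserving maps `g 0, …, g (n-1)` of `P`
there are distinct exponent vectors `a`, `b` with entries at most `k` and a point `x` with
`g^a x = g^b x`. -/
theorem result :
    ∀ n : ℕ, ∃ k : ℕ, 0 < k ∧ ∀ (P : Type) [PartialOrder P],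
      (∀ c : Finset P, IsChain (· ≤ ·) (c : Set P) → c.card ≤ n) →
      ∀ s : P,
        (∀ x : P, (∃ z : P, IsLUB ({s, x} : Set P) z) ∨ (∃ z : P, IsGLB ({s, x} : Set P) z)) →
        (∀ x y : P, x < y → (¬ ∃ z : P, IsGLB ({s, x} : Set P) z) →
          ∀ m : P, IsGLB ({s, y} : Set P) m → ∃ z : P, IsLUB ({m, x} : Set P) z) →
        (∀ f : P → P, Monotone f → ∃ x : P, f^[k] x = x) ∧
        (∀ g : ℕ → P → P, (∀ i < n, Monotone (g i)) →
          (∀ i < n, ∀ j < n, ∀ x : P, g i (g j x) = g j (g i x)) →
          ∃ a b : ℕ → ℕ, (∀ i, a i ≤ k ∧ b i ≤ k) ∧ (∃ i < n, a i ≠ b i) ∧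
            ∃ x : P, (List.range n).foldr (fun i y => (g i)^[a i] y) x =
              (List.range n).foldr (fun i y => (g i)^[b i] y) x) := by
  intro n
  obtain ⟨k, hk, h⟩ := Pool.Agent.Y540.SP.iterate n
  exact ⟨k, hk, fun P _ hP s h1 h2 => h P hP s ⟨h1, h2⟩⟩

end Pool.Agent.Results.MP_3976d4_co.UniformPeriod
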